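import Pool.Agent.Q276.BA.Any

/-!
# Powers of the Beurling transform on functions with bounded angular frequencies

Let `T` be the Beurling transform, `p ≥ 2`, `1/p + 1/q = 1`. The two questions ask for
`‖T^n f‖_p ≤ (1/q)_n / (1/p)_n ‖f‖_p` and for the weaker `‖T^n f‖_p ≤ n^(1 - 2/p) (p - 1) ‖f‖_p`. Both are proved here for
all `n ≥ 1`, all `p ≥ 2` and all `f` whose angular frequencies about some point lie in `[-n, n]`; with a larger interval
`[-D, n]` they are proved for all `p ≥ 3 + 6 (1 + D/n)^(5/8)`, and with `m` arbitrary further frequencies other than `2 n`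
for all `p ≥ 15 m + 9`. The frequency `2 n` is the extremal one; if it is allowed, the first bound is proved up to the
factor `1 + 15 (m + 1) / (p - 1)` for large `p`. (The file `ModesUpToN` has one frequency `k ≤ n`, for which part (5) has a
smaller constant, and `ModesAboveN`, used here, one frequency `k > n`, `k ≠ 2 n`; one frequency `2 n` for large `p` is the
starting file `AngularLargeP`, also used.)

Method. On the frequency `k ≤ n` one has `T^n f z = (conj z / z)^n (f z + ∫_0^1 q_k(v) f(√v z) dv)` with an explicit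
Jacobi polynomial `q_k`. The operator on the right is an isometry of `L²` and bounded on bounded functions, with
norm at most `1 + ∫_0^1 √(∑_k q_k(v)²) dv` for several frequencies, which is `O(n)` for the frequencies in `[-n, n]`
(Parseval for the kernel of `T^n` and a Möbius change of variables in the disc). Interpolation between the exponents `2` and
`∞` gives `(C n)^(1 - 2/p)` with a constant `C` below that of the questions, `4 e^γ = 7.12…`. Single frequencies are split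
off by averaging over rotations.
-/

set_option autoImplicit false

open MeasureTheory
open scoped SchwartzMap

namespace Pool.Agent.Results.MP_3dd6d4_an.BoundedFrequencies

/-- The `n`-th power of the Beurling transform: the Fourier multiplier with symbol
`(conj ξ / ξ) ^ n`, in the literal form of the frozen statement. -/
noncomputable def T (n : ℕ) (f : ℂ → ℂ) (z : ℂ) : ℂ :=
  ∫ ξ : ℂ,
    Complex.exp (2 * (Real.pi : ℂ) * Complex.I * (((z.re * ξ.re + z.im * ξ.im : ℝ)) : ℂ)) *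
      ((starRingEnd ℂ ξ / ξ) ^ n *
        ∫ x : ℂ, Complex.exp (-(2 * (Real.pi : ℂ) * Complex.I *
          (((x.re * ξ.re + x.im * ξ.im : ℝ)) : ℂ))) * f x)

/-- The constant `(1/q)_n / (1/p)_n`. -/
noncomputable def K (n : ℕ) (p : ℝ) : ℝ :=
  (ascPochhammer ℝ n).eval (1 - 1 / p) / (ascPochhammer ℝ n).eval (1 / p)

/-- The angular frequencies of `f` about some point `c` are in the finite set `S`: `f` is a sum of Schwartz functions
`g k`, `k ∈ S`, with `g k (c + a z) = a ^ k * g k (c + z)` for `|a| = 1`. -/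
def Freq (S : Finset ℤ) (f : 𝓢(ℂ, ℂ)) : Prop := ∃ (c : ℂ) (g : ℤ → 𝓢(ℂ, ℂ)), f = ∑ k ∈ S, g k ∧
  ∀ k ∈ S, ∀ a z : ℂ, ‖a‖ = 1 → g k (c + a * z) = a ^ k * g k (c + z)

/-- `‖T^n f‖_p ≤ C ‖f‖_p` -/
def Bound (n : ℕ) (p C : ℝ) (f : 𝓢(ℂ, ℂ)) : Prop :=
  eLpNorm (T n f) (ENNReal.ofReal p) (volume : Measure ℂ) ≤
    ENNReal.ofReal C * eLpNorm f (ENNReal.ofReal p) (volume : Measure ℂ)

/-- **Both bounds of the questions for bounded angular frequencies.** -/
theorem result :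
    -- (0) the first bound is the stronger one
    (∀ (n : ℕ) (p : ℝ), 1 ≤ n → 2 ≤ p → K n p ≤ (n : ℝ) ^ (1 - 2 / p) * (p - 1)) ∧
    -- (1) frequencies in `[-n, n]`
    (∀ (n : ℕ) (f : 𝓢(ℂ, ℂ)), 1 ≤ n → Freq (Finset.Icc (-(n : ℤ)) n) f →
      (∀ p : ℝ, 2 ≤ p → Bound n p (K n p) f ∧ Bound n p ((n : ℝ) ^ (1 - 2 / p) * (p - 1)) f ∧
        Bound n p ((1 + 11 / 2 * n) ^ (1 - 2 / p)) f) ∧
      ∀ B : ℝ, (∀ z, ‖f z‖ ≤ B) → ∀ z, ‖T n f z‖ ≤ (1 + 11 / 2 * n) * B) ∧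
    -- (2) frequencies in `[-D, n]`, `D ≥ n`
    (∀ (n D : ℕ) (f : 𝓢(ℂ, ℂ)), 1 ≤ n → n ≤ D → Freq (Finset.Icc (-(D : ℤ)) n) f →
      (∀ p : ℝ, 2 ≤ p →
        Bound n p ((1 + 4 * (n : ℝ) ^ (3 / 8 : ℝ) * ((n : ℝ) + D) ^ (5 / 8 : ℝ)) ^ (1 - 2 / p)) f) ∧
      ∀ p : ℝ, 3 + 6 * (1 + (D : ℝ) / n) ^ (5 / 8 : ℝ) ≤ p →
        Bound n p (K n p) f ∧ Bound n p ((n : ℝ) ^ (1 - 2 / p) * (p - 1)) f) ∧
    -- (3) frequencies in `[-n, n]` and finitely many others, not `2 n`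
    (∀ (n : ℕ) (S : Finset ℤ) (f : 𝓢(ℂ, ℂ)), 1 ≤ n → 2 * (n : ℤ) ∉ S → Freq (Finset.Icc (-(n : ℤ)) n ∪ S) f →
      (∀ p : ℝ, 2 ≤ p → Bound n p ((2 * S.card + 1) * (Real.exp 2 * n) ^ (1 - 2 / p)) f) ∧
      ∀ p : ℝ, 15 * S.card + 9 ≤ p → Bound n p (K n p) f ∧ Bound n p ((n : ℝ) ^ (1 - 2 / p) * (p - 1)) f) ∧
    -- (4) frequencies in `[-n, n]` and finitely many others
    (∀ (n : ℕ) (S : Finset ℤ) (f : 𝓢(ℂ, ℂ)), 1 ≤ n → Freq (Finset.Icc (-(n : ℤ)) n ∪ S) f →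
      ∀ p : ℝ, 4000 * (n : ℝ) ^ 5 ≤ p → Bound n p ((1 + 15 * (S.card + 1) / (p - 1)) * K n p) f) ∧
    -- (5) one frequency `k ≤ n`
    (∀ (n : ℕ) (k : ℤ) (f : 𝓢(ℂ, ℂ)), k ≤ n → Freq {k} f →
      (∀ p : ℝ, 2 ≤ p → Bound n p ((1 + 2.11 * ((n : ℝ) - max k 0) ^ (3 / 4 : ℝ)) ^ (1 - 2 / p)) f) ∧
      ∀ B : ℝ, (∀ z, ‖f z‖ ≤ B) → ∀ z, ‖T n f z‖ ≤ (1 + 2.11 * ((n : ℝ) - max k 0) ^ (3 / 4 : ℝ)) * B) := by
  have hT : ∀ n f, T n f = Y282.RB.Tn n f := fun n f => rfl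
  have hK : ∀ (n : ℕ) (p : ℝ), 2 ≤ p → K n p = Y282.RB.Cn p n := fun n p hp =>
    (Y282.RB.K3.main n p (by linarith)).symm
  have hF : ∀ S f, Freq S f → Q276.BA.Main.Freq S f := fun S f h => h
  have hle : ∀ (n : ℕ) (p : ℝ), 1 ≤ n → 2 ≤ p → K n p ≤ (n : ℝ) ^ (1 - 2 / p) * (p - 1) := by
    intro n p hn hp
    rw [hK n p hp]
    exact Q276.BA.Main.K_le n hn p hp
  have hmono : ∀ (n : ℕ) (p : ℝ) (f : 𝓢(ℂ, ℂ)), 1 ≤ n → 2 ≤ p → Bound n p (K n p) f →
      Bound n p ((n : ℝ) ^ (1 - 2 / p) * (p - 1)) f := by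
    intro n p f hn hp h
    unfold Bound at h ⊢
    refine h.trans ?_
    gcongr
    exact hle n p hn hp
  have hcast : ∀ (n : ℕ) (k : ℤ), k ≤ n → ((n - k.toNat : ℕ) : ℝ) = (n : ℝ) - max k 0 := by
    intro n k hk
    rw [Nat.cast_sub (by omega)]
    have h : ((k.toNat : ℕ) : ℝ) = ((max k 0 : ℤ) : ℝ) := by
      rw [← Int.toNat_eq_max]
      exact (Int.cast_natCast _).symm
    rw [h]
  refine ⟨hle, ?_, ?_, ?_, ?_, ?_⟩
  · intro n f hn hf
    refine ⟨fun p hp => ?_, fun B hB z => ?_⟩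
    · have h1 : Bound n p (K n p) f := by
        unfold Bound
        rw [hK n p hp, hT]
        exact Q276.BA.All.band_K n hn p hp f (hF _ _ hf)
      exact ⟨h1, hmono n p f hn hp h1, Q276.BA.All.band_version n hn p hp f (hF _ _ hf)⟩
    · exact Q276.BA.All.band_sup n hn f (hF _ _ hf) B hB z
  · intro n D f hn hD hf
    refine ⟨fun p hp => Q276.BA.All.wide n D hn hD p hp f (hF _ _ hf), fun p hp => ?_⟩
    have hp2 : 2 ≤ p := by
      have : (0 : ℝ) ≤ 6 * (1 + (D : ℝ) / n) ^ (5 / 8 : ℝ) := by positivity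
      linarith
    have h1 : Bound n p (K n p) f := by
      unfold Bound
      rw [hK n p hp2, hT]
      exact Q276.BA.All.wide_K n D hn hD p hp f (hF _ _ hf)
    exact ⟨h1, hmono n p f hn hp2 h1⟩
  · intro n S f hn hS hf
    refine ⟨fun p hp => ?_, fun p hp => ?_⟩
    · unfold Bound
      rw [hT]
      refine (Q276.BA.Any.some n hn S hS p hp f (hF _ _ hf)).trans ?_
      gcongr
      · exact (Q276.BA.Any.eO_pos n).le
      · exact Q276.BA.Any.u_nonneg hp
      · exact Q78.BB.Fin.E_le hn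
    · have hp2 : 2 ≤ p := by
        have : (0 : ℝ) ≤ (S.card : ℝ) := Nat.cast_nonneg _
        linarith
      have h1 : Bound n p (K n p) f := by
        unfold Bound
        rw [hK n p hp2, hT]
        exact Q276.BA.Any.some_K n hn S hS p hp f (hF _ _ hf)
      exact ⟨h1, hmono n p f hn hp2 h1⟩
  · intro n S f hn hf p hp
    have hp2 : 2 ≤ p := by
      have hn' : (1 : ℝ) ≤ n := by exact_mod_cast hn
      have : (1 : ℝ) ≤ (n : ℝ) ^ 5 := one_le_pow₀ hn'
      linarith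
    unfold Bound
    rw [hK n p hp2, hT]
    exact Q276.BA.Any.all_large n hn S p hp f (hF _ _ hf)
  · intro n k f hk hf
    rw [← hcast n k hk]
    exact ⟨fun p hp => Q276.BA.All.single n k hk p hp f (hF _ _ hf),
      fun B hB z => Q276.BA.All.single_sup n k hk f (hF _ _ hf) B hB z⟩

end Pool.Agent.Results.MP_3dd6d4_an.BoundedFrequencies
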