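import Pool.Agent.Q299.BA.Glob

set_option autoImplicit false

open MeasureTheory Metric

namespace Pool.Agent.Results.MP_3dd6d4_an.ModesUpToN

/-- The `n`-th power of the Beurling transform: the Fourier multiplier with symbol
`(conj ξ / ξ) ^ n`, written out with the Fourier kernel `exp(-2 π i x · ξ)`. -/
noncomputable def T (n : ℕ) (f : ℂ → ℂ) (z : ℂ) : ℂ :=
  ∫ ξ : ℂ,
    Complex.exp (2 * (Real.pi : ℂ) * Complex.I * (((z.re * ξ.re + z.im * ξ.im : ℝ)) : ℂ)) *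
      ((starRingEnd ℂ ξ / ξ) ^ n *
        ∫ x : ℂ, Complex.exp (-(2 * (Real.pi : ℂ) * Complex.I *
          (((x.re * ξ.re + x.im * ξ.im : ℝ)) : ℂ))) * f x)

/-- The Pochhammer quotient `(1/q)_n / (1/p)_n`. -/
noncomputable def K (n : ℕ) (p : ℝ) : ℝ :=
  (ascPochhammer ℝ n).eval (1 - 1 / p) / (ascPochhammer ℝ n).eval (1 / p)

/-- The constant `min (1 + √(n (n - k)), 7 n)`. -/
noncomputable def C (n : ℕ) (k : ℤ) : ℝ := min (1 + √((n : ℝ) * ((n : ℝ) - (k : ℝ)))) (7 * (n : ℝ))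

/-- The inequality of the question on the angular modes `k ≤ n`, for every `n ≥ 1` and `p ≥ 2`. -/
theorem result (n : ℕ) (hn : 1 ≤ n) (k : ℤ) (hk : k ≤ n) (f : SchwartzMap ℂ ℂ)
    (hf : ∀ a z : ℂ, ‖a‖ = 1 → f (a * z) = a ^ k * f z) :
    (∀ z : ℂ, z ≠ 0 →
      ‖T n f z - (starRingEnd ℂ z / z) ^ n * f z‖ ^ 2 ≤
        n * (n - k) * ((⨍ w in ball (0 : ℂ) ‖z‖, ‖f w‖ ^ 2) - ⨍ w in ball (0 : ℂ) ‖z‖, ‖T n f w‖ ^ 2)) ∧
    ∀ p : ℝ, 2 ≤ p →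
      (∀ R : ℝ, 0 ≤ R → ∫ z in ball (0 : ℂ) R, ‖T n f z‖ ^ p ≤
        C n k ^ (p - 2) * ∫ z in ball (0 : ℂ) R, ‖f z‖ ^ p) ∧
      eLpNorm (T n f) (ENNReal.ofReal p) (volume : Measure ℂ)
        ≤ ENNReal.ofReal (C n k ^ (1 - 2 / p)) * eLpNorm f (ENNReal.ofReal p) (volume : Measure ℂ) ∧
      C n k ^ (1 - 2 / p) ≤ K n p ∧
      C n k ^ (1 - 2 / p) ≤ (n : ℝ) ^ (1 - 2 / p) * (p - 1) ∧
      eLpNorm (T n f) (ENNReal.ofReal p) (volume : Measure ℂ)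
        ≤ ENNReal.ofReal ((n : ℝ) ^ (1 - 2 / p) * (p - 1))
          * eLpNorm f (ENNReal.ofReal p) (volume : Measure ℂ) := by
  have hT : T n f = TH55.PowA.T (Q299.BA.bb n) f := rfl
  have hn0 : (0 : ℝ) < n := by exact_mod_cast hn
  have hC0 : 0 ≤ C n k := le_min (by positivity) (by positivity)
  have hC7 : C n k ≤ 7 * n := min_le_right _ _
  refine ⟨fun z hz => ?_, fun p hp => ?_⟩
  · rw [hT]
    exact Q299.BA.pt_all hk hf hz
  · have hp0 : 0 < p := by linarith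
    have he : 0 ≤ 1 - 2 / p := by
      rw [sub_nonneg, div_le_one hp0]; exact hp
    have h1 : ∀ R : ℝ, 0 ≤ R → ∫ z in ball (0 : ℂ) R, ‖T n f z‖ ^ p ≤
        C n k ^ (p - 2) * ∫ z in ball (0 : ℂ) R, ‖f z‖ ^ p := by
      intro R hR
      rw [hT]
      exact Q299.BA.disc_all hn hk hf hp hR
    have h2 : eLpNorm (T n f) (ENNReal.ofReal p) (volume : Measure ℂ)
        ≤ ENNReal.ofReal (C n k ^ (1 - 2 / p)) * eLpNorm f (ENNReal.ofReal p) (volume : Measure ℂ) := by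
      refine Q299.BA.glob ?_ f.continuous hp0 (Real.rpow_nonneg hC0 _) fun R hR => ?_
      · rw [hT]
        exact TH55.PowA.T_cont (Q299.BA.adm_bb n) f
      · refine (h1 R hR).trans (le_of_eq ?_)
        rw [← Real.rpow_mul hC0]
        congr 2
        field_simp
    have h3 : C n k ^ (1 - 2 / p) ≤ (7 * (n : ℝ)) ^ (1 - 2 / p) := Real.rpow_le_rpow hC0 hC7 he
    have h4 : C n k ^ (1 - 2 / p) ≤ (n : ℝ) ^ (1 - 2 / p) * (p - 1) := h3.trans (Q299.BA.seven_le' hp)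
    refine ⟨h1, h2, h3.trans (Q299.BA.seven_le hn hp), h4, h2.trans ?_⟩
    gcongr

end Pool.Agent.Results.MP_3dd6d4_an.ModesUpToN
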